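import Pool.Agent.Helper30.LK.St

/-!
# Project LK (MP_2d2425_nt), module DIV: integers free of the primes of a finite set in a progression
-/

set_option autoImplicit false

noncomputable section

namespace Pool.Agent.Helper2.LK

open Finset ArithmeticFunction Filter
open Pool.Agent.Helper30.LK
open ArithmeticFunction.vonMangoldt (residueClass residueClass_nonneg residueClass_le
  residueClass_apply_zero summable_residueClass_non_primes_div)
open scoped Topology

/-- the sum of `1 / p` over the primes in an invertible residue class diverges -/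
private theorem not_summable_inv {q : ℕ} [NeZero q] {a : ZMod q} (ha : IsUnit a) :
    ¬ Summable (fun n : ℕ => if n.Prime ∧ (n : ZMod q) = a then (1 : ℝ) / n else 0) := by
  intro H
  obtain ⟨C, hC⟩ := ArithmeticFunction.vonMangoldt.LSeries_residueClass_lower_bound ha
  let s : ℕ → ℝ := fun m => 1 / ((m : ℝ) + 1)
  have hs0 : ∀ m, 0 < s m := fun m => by positivity
  have hs1 : ∀ m, s m ≤ 1 := fun m => by
    change 1 / ((m : ℝ) + 1) ≤ 1
    rw [div_le_one (by positivity)]
    have : (0 : ℝ) ≤ m := Nat.cast_nonneg m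
    linarith
  have hslim : Tendsto s atTop (𝓝 0) := tendsto_one_div_add_atTop_nhds_zero_nat
  have hpow : ∀ (n m : ℕ), n ≠ 0 → (n : ℝ) ≤ (n : ℝ) ^ (1 + s m) := by
    intro n m hn
    have h1 : (1 : ℝ) ≤ n := by exact_mod_cast Nat.one_le_iff_ne_zero.2 hn
    calc (n : ℝ) = (n : ℝ) ^ (1 : ℝ) := (Real.rpow_one _).symm
      _ ≤ (n : ℝ) ^ (1 + s m) := Real.rpow_le_rpow_of_exponent_le h1 (by linarith [hs0 m])
  have hle : ∀ n m : ℕ, s m * (residueClass a n / (n : ℝ) ^ (1 + s m)) ≤
      s m * (residueClass a n / n) := by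
    intro n m
    rcases eq_or_ne n 0 with rfl | hn
    · simp
    · have hn0 : (0 : ℝ) < n := by exact_mod_cast Nat.pos_of_ne_zero hn
      exact mul_le_mul_of_nonneg_left
        (div_le_div_of_nonneg_left (residueClass_nonneg a n) hn0 (hpow n m hn)) (hs0 m).le
  have hnn : ∀ n m : ℕ, 0 ≤ s m * (residueClass a n / (n : ℝ) ^ (1 + s m)) := fun n m =>
    mul_nonneg (hs0 m).le (div_nonneg (residueClass_nonneg a n) (by positivity))
  have hlim : Tendsto (fun m => ∑' n : ℕ, s m * (residueClass a n / (n : ℝ) ^ (1 + s m))) atTop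
      (𝓝 (∑' _ : ℕ, (0 : ℝ))) := by
    refine tendsto_tsum_of_dominated_convergence
      (bound := fun n : ℕ => (if n.Prime ∧ (n : ZMod q) = a then (1 : ℝ) / n else 0) +
        (if n.Prime then 0 else residueClass a n) / n)
      (H.add (summable_residueClass_non_primes_div a)) ?_ ?_
    · intro n
      have h1 : Tendsto (fun m => s m * (residueClass a n / n)) atTop (𝓝 0) := by
        have := hslim.mul_const (residueClass a n / n)
        rwa [zero_mul] at this
      exact squeeze_zero (fun m => hnn n m) (fun m => hle n m) h1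
    · refine Eventually.of_forall fun m n => ?_
      rw [Real.norm_of_nonneg (hnn n m)]
      by_cases hp : n.Prime
      · have hn0 : (0 : ℝ) < n := by exact_mod_cast hp.pos
        rw [if_pos hp, zero_div, add_zero]
        by_cases hna : (n : ZMod q) = a
        · rw [if_pos ⟨hp, hna⟩]
          have e1 : residueClass a n = Real.log n := by
            rw [residueClass, Set.indicator_of_mem (by exact hna)]
            exact ArithmeticFunction.vonMangoldt_apply_prime hp
          have e2 : Real.log n ≤ (n : ℝ) ^ (s m) / s m := Real.log_le_rpow_div hn0.le (hs0 m)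
          rw [le_div_iff₀ (hs0 m)] at e2
          rw [e1, Real.rpow_add hn0, Real.rpow_one, mul_div_assoc', div_le_div_iff₀ (by positivity)
            hn0]
          nlinarith
        · rw [if_neg (fun h => hna h.2)]
          have e1 : residueClass a n = 0 := by
            rw [residueClass, Set.indicator_of_notMem (by exact hna)]
          rw [e1, zero_div, mul_zero]
      · rw [if_neg (fun h => hp h.1), if_neg hp, zero_add]
        refine (hle n m).trans ?_
        exact mul_le_of_le_one_left (div_nonneg (residueClass_nonneg a n) (Nat.cast_nonneg n))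
          (hs1 m)
  rw [tsum_zero] at hlim
  have hlow : ∀ m, (q.totient : ℝ)⁻¹ - C * s m ≤
      ∑' n : ℕ, s m * (residueClass a n / (n : ℝ) ^ (1 + s m)) := by
    intro m
    have h1 := hC (x := 1 + s m) ⟨by linarith [hs0 m], by linarith [hs1 m]⟩
    rw [tsum_mul_left]
    have h2 := mul_le_mul_of_nonneg_left h1 (hs0 m).le
    have h3 : s m * ((q.totient : ℝ)⁻¹ / (1 + s m - 1) - C) = (q.totient : ℝ)⁻¹ - C * s m := by
      have h4 : s m ≠ 0 := (hs0 m).ne'
      rw [add_sub_cancel_left]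
      field_simp
    linarith
  have hlim2 : Tendsto (fun m => (q.totient : ℝ)⁻¹ - C * s m) atTop (𝓝 ((q.totient : ℝ)⁻¹ - C * 0)) :=
    tendsto_const_nhds.sub (hslim.const_mul C)
  have h5 := le_of_tendsto_of_tendsto hlim2 hlim (Eventually.of_forall hlow)
  have h6 : (0 : ℝ) < (q.totient : ℝ)⁻¹ := inv_pos.mpr (mod_cast q.totient_pos.2 (NeZero.pos q))
  rw [mul_zero, sub_zero] at h5
  linarith

/-- **DIV.** -/
theorem hDIV : StDIV := by
  intro q a p₀ hq hc ε hε
  have : NeZero q := ⟨by omega⟩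
  have ha : IsUnit (a : ZMod q) := (ZMod.isUnit_iff_coprime a q).2 hc
  have hns := not_summable_inv ha
  have hg0 : ∀ n : ℕ, 0 ≤ (if n.Prime ∧ (n : ZMod q) = (a : ZMod q) then (1 : ℝ) / n else 0) :=
    fun n => by split_ifs <;> positivity
  rw [not_summable_iff_tendsto_nat_atTop_of_nonneg hg0] at hns
  obtain ⟨K, hK⟩ := (hns.eventually_ge_atTop
    (Real.log (2 / ε) + ∑ n ∈ range p₀, (1 : ℝ) / n)).exists
  let P : Finset ℕ := (range K).filter (fun p : ℕ => (p.Prime ∧ (p : ZMod q) = (a : ZMod q)) ∧ p₀ ≤ p)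
  have hP : ∀ p ∈ P, p.Prime ∧ p % q = a % q ∧ p₀ ≤ p := by
    intro p hp
    obtain ⟨-, ⟨h1, h2⟩, h3⟩ := mem_filter.1 hp
    exact ⟨h1, (ZMod.natCast_eq_natCast_iff' p a q).1 h2, h3⟩
  have hsum : Real.log (2 / ε) ≤ ∑ p ∈ P, (1 : ℝ) / p := by
    have h1 : ∑ n ∈ range K, (if n.Prime ∧ (n : ZMod q) = (a : ZMod q) then (1 : ℝ) / n else 0) ≤
        ∑ p ∈ P, (1 : ℝ) / p + ∑ n ∈ range p₀, (1 : ℝ) / n := by
      rw [← sum_filter]
      have h2 : (range K).filter (fun n : ℕ => n.Prime ∧ (n : ZMod q) = (a : ZMod q)) ⊆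
          P ∪ range p₀ := by
        intro n hn
        obtain ⟨h3, h4⟩ := mem_filter.1 hn
        rw [mem_union]
        by_cases h5 : p₀ ≤ n
        · exact Or.inl (mem_filter.2 ⟨h3, h4, h5⟩)
        · exact Or.inr (mem_range.2 (by omega))
      calc ∑ n ∈ (range K).filter (fun n : ℕ => n.Prime ∧ (n : ZMod q) = (a : ZMod q)), (1 : ℝ) / n
          ≤ ∑ n ∈ P ∪ range p₀, (1 : ℝ) / n :=
            sum_le_sum_of_subset_of_nonneg h2 fun i _ _ => by positivity
        _ ≤ ∑ p ∈ P, (1 : ℝ) / p + ∑ n ∈ range p₀, (1 : ℝ) / n := by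
            have h6 := sum_union_inter (s₁ := P) (s₂ := range p₀) (f := fun n : ℕ => (1 : ℝ) / n)
            have h7 : 0 ≤ ∑ n ∈ P ∩ range p₀, (1 : ℝ) / (n : ℝ) :=
              sum_nonneg fun i _ => by positivity
            linarith
    linarith
  refine ⟨P, hP, ?_⟩
  -- the product
  let D : ℕ := ∏ p ∈ P, p
  have hD0 : 0 < D := prod_pos fun p hp => (hP p hp).1.pos
  have htot : (D.totient : ℝ) = D * ∏ p ∈ P, (1 - (p : ℝ)⁻¹) := by
    have h1 := Nat.totient_eq_mul_prod_factors D
    have h2 : D.primeFactors = P := Nat.primeFactors_prod fun p hp => (hP p hp).1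
    rw [h2] at h1
    have h3 := congrArg (fun r : ℚ => (r : ℝ)) h1
    push_cast at h3
    exact h3
  have hprod : ∏ p ∈ P, (1 - (p : ℝ)⁻¹) ≤ ε / 2 := by
    calc ∏ p ∈ P, (1 - (p : ℝ)⁻¹) ≤ ∏ p ∈ P, Real.exp (-((1 : ℝ) / p)) := by
          refine prod_le_prod (fun p hp => ?_) fun p hp => ?_
          · have h1 : (1 : ℝ) ≤ p := by exact_mod_cast (hP p hp).1.one_lt.le
            have h2 := inv_le_one_of_one_le₀ h1
            linarith
          · have h1 := Real.add_one_le_exp (-((1 : ℝ) / p))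
            rw [one_div] at h1 ⊢
            linarith
      _ = Real.exp (-∑ p ∈ P, (1 : ℝ) / p) := by
          rw [← Real.exp_sum, sum_neg_distrib]
      _ ≤ Real.exp (-Real.log (2 / ε)) := Real.exp_le_exp.2 (by linarith)
      _ = ε / 2 := by
          rw [Real.exp_neg, Real.exp_log (by positivity), inv_div]
  have hDR : (0 : ℝ) < D := by exact_mod_cast hD0
  have htot2 : (D.totient : ℝ) ≤ D * (ε / 2) := by
    rw [htot]
    exact mul_le_mul_of_nonneg_left hprod hDR.le
  refine ⟨D, fun N hN => ?_⟩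
  have hNR : (D : ℝ) ≤ N := by exact_mod_cast hN
  have h1 : (Icc 1 N).filter (fun n => ∀ p ∈ P, ¬ p ∣ n) ⊆
      (Ico 1 (1 + N)).filter (Nat.Coprime D) := by
    intro n hn
    obtain ⟨h2, h3⟩ := mem_filter.1 hn
    rw [mem_Icc] at h2
    rw [mem_filter, mem_Ico]
    refine ⟨⟨h2.1, by omega⟩, ?_⟩
    exact Nat.Coprime.prod_left fun p hp => ((hP p hp).1.coprime_iff_not_dvd).2 (h3 p hp)
  have h2 : (((Icc 1 N).filter (fun n => ∀ p ∈ P, ¬ p ∣ n)).card : ℝ) ≤
      (D.totient : ℝ) * ((N : ℝ) / D + 1) := by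
    have h3 := (card_le_card h1).trans (Nat.Ico_filter_coprime_le 1 N hD0.ne')
    have h4 : (((Icc 1 N).filter (fun n => ∀ p ∈ P, ¬ p ∣ n)).card : ℝ) ≤
        ((D.totient * (N / D + 1) : ℕ) : ℝ) := by exact_mod_cast h3
    refine h4.trans ?_
    push_cast
    have h5 : ((N / D : ℕ) : ℝ) ≤ (N : ℝ) / D := Nat.cast_div_le
    exact mul_le_mul_of_nonneg_left (by linarith) (Nat.cast_nonneg _)
  calc (((Icc 1 N).filter (fun n => ∀ p ∈ P, ¬ p ∣ n)).card : ℝ)
      ≤ (D.totient : ℝ) * ((N : ℝ) / D + 1) := h2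
    _ ≤ D * (ε / 2) * ((N : ℝ) / D + 1) := mul_le_mul_of_nonneg_right htot2 (by positivity)
    _ = (ε / 2) * N + (ε / 2) * D := by field_simp
    _ ≤ ε * N := by nlinarith

end Pool.Agent.Helper2.LK
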